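import Pool.Agent.TH404.AK.Sdc3
import Pool.Agent.W814.BB.Slices

/-!
# Distinct multiples in short intervals from sums-differences inequalities

If the sums-differences inequality holds with exponent `c > 1`, an interval of length
`T m K`, with `K ^ c ≥ n ^ (c - 1)`, contains distinct multiples of the elements of every set of
at most `n` positive integers `≤ m`.
-/

set_option autoImplicit false

open Finset

namespace Pool.Agent.Y238.KE

open Pool.Agent.W904.AK Pool.Agent.W814.BB

/-- Elements of `N` in the `j`-th block of length `L` after `X`. -/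
def blk (N : Finset ℕ) (X L j : ℕ) : Finset ℕ :=
  N.filter (fun a => X + L * j < a ∧ a ≤ X + L * (j + 1))

lemma sum_blk (N : Finset ℕ) (X L B : ℕ) :
    ∑ j ∈ Finset.range B, (blk N X L j).card ≤ N.card := by
  classical
  rw [← Finset.card_biUnion]
  · apply Finset.card_le_card
    intro a ha
    rw [Finset.mem_biUnion] at ha
    obtain ⟨j, _, hj⟩ := ha
    exact (Finset.mem_filter.1 hj).1
  · intro i _ j _ hij
    rw [Function.onFun, Finset.disjoint_left]
    intro a ha hb
    have h1 := (Finset.mem_filter.1 ha).2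
    have h2 := (Finset.mem_filter.1 hb).2
    rcases lt_or_gt_of_ne hij with h | h
    · have : L * (i + 1) ≤ L * j := Nat.mul_le_mul_left _ h
      omega
    · have : L * (j + 1) ≤ L * i := Nat.mul_le_mul_left _ h
      omega

theorem exists_multiples {c : ℝ} (hc : 1 < c) (h : SDc c) :
    ∃ T : ℕ, 0 < T ∧ ∀ (n K m X : ℕ), (n : ℝ) ^ (c - 1) ≤ (K : ℝ) ^ c →
      ∀ A : Finset ℕ, A.card ≤ n → (∀ a ∈ A, 0 < a ∧ a ≤ m) →
        ∃ f : A → ℕ, Function.Injective f ∧
          ∀ a : A, X < f a ∧ f a ≤ X + T * m * K ∧ (a : ℕ) ∣ f a := by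
  classical
  obtain ⟨ms, hne, hpos, hSB⟩ := sliceBound_of_SDc (by linarith) h
  have hc0 : 0 < c := by linarith
  refine ⟨ms.sup id + 1, by omega, fun n K m X hK A hAn hA => ?_⟩
  set T := ms.sup id + 1 with hT
  set t : A → Finset ℕ := fun a =>
    (Finset.Ioc X (X + T * m * K)).filter (fun b => (a : ℕ) ∣ b) with ht
  have hh : ∀ s : Finset A, s.card ≤ (s.biUnion t).card := by
    intro s
    by_contra hcon
    push Not at hcon
    set N := s.biUnion t with hN
    set S : Finset ℕ := s.image (fun a : A => (a : ℕ)) with hS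
    have hSc : S.card = s.card := Finset.card_image_of_injective _ Subtype.val_injective
    have hSA : S ⊆ A := by
      intro k hk
      obtain ⟨a, _, rfl⟩ := Finset.mem_image.1 hk
      exact a.2
    have hSn : S.card ≤ n := (Finset.card_le_card hSA).trans hAn
    have hS0 : 0 < S.card := by omega
    have hn1 : (1 : ℝ) ≤ (n : ℝ) ^ (c - 1) :=
      Real.one_le_rpow (by exact_mod_cast (by omega : 1 ≤ n)) (by linarith)
    have hK0 : 0 < K := by
      rcases Nat.eq_zero_or_pos K with h0 | h0
      · rw [h0, Nat.cast_zero, Real.zero_rpow hc0.ne'] at hK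
        linarith
      · exact h0
    have hNm : ∀ k ∈ S, ∀ a, X < a → a ≤ X + T * m * K → k ∣ a → a ∈ N := by
      intro k hk b hb1 hb2 hd
      obtain ⟨a, ha, rfl⟩ := Finset.mem_image.1 hk
      exact Finset.mem_biUnion.2 ⟨a, ha,
        Finset.mem_filter.2 ⟨Finset.mem_Ioc.2 ⟨hb1, hb2⟩, hd⟩⟩
    have hex : ∃ j ∈ Finset.range K, K * (blk N X (T * m) j).card ≤ N.card := by
      by_contra hcon2
      push Not at hcon2
      have h1 : ∑ j ∈ Finset.range K, N.card <
          ∑ j ∈ Finset.range K, K * (blk N X (T * m) j).card :=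
        Finset.sum_lt_sum_of_nonempty ⟨0, Finset.mem_range.2 hK0⟩ hcon2
      rw [Finset.sum_const, Finset.card_range, smul_eq_mul, ← Finset.mul_sum] at h1
      have h2 := sum_blk N X (T * m) K
      have h3 := Nat.mul_le_mul_left K h2
      omega
    obtain ⟨j, hj, hjB⟩ := hex
    have hjlt := Finset.mem_range.1 hj
    set z := X + T * m * j with hz
    set M := blk N X (T * m) j with hM
    have key : ∀ r ∈ ms, ∀ k ∈ S, k * (z / k + 1) + r * k ∈ M := by
      intro r hr k hk
      obtain ⟨hk0, hky⟩ := hA k (hSA hk)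
      have hlt : z < k * (z / k + 1) := by
        have := Nat.lt_mul_div_succ z hk0
        simpa [Nat.succ_eq_add_one] using this
      have hle : k * (z / k + 1) ≤ z + k := by
        have := Nat.mul_div_le z k
        rw [mul_add, mul_one]; omega
      have hrT : r ≤ ms.sup id := Finset.le_sup (f := id) hr
      have hrk : r * k ≤ ms.sup id * m := Nat.mul_le_mul hrT hky
      have hTm : T * m = ms.sup id * m + m := by rw [hT, add_mul, one_mul]
      have hup : k * (z / k + 1) + r * k ≤ X + T * m * (j + 1) := by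
        have : T * m * (j + 1) = T * m * j + T * m := by ring
        omega
      have hB' : T * m * (j + 1) ≤ T * m * K := Nat.mul_le_mul_left _ hjlt
      have hdvd : k ∣ k * (z / k + 1) + r * k := by
        refine Dvd.dvd.add (Dvd.intro _ rfl) (Dvd.intro_left _ rfl)
      refine Finset.mem_filter.2 ⟨hNm k hk _ ?_ ?_ hdvd, ?_, hup⟩
      · omega
      · omega
      · omega
    -- the sums-differences inequality
    set G : Finset (ℤ × ℤ) := S.image fun k : ℕ => (((k * (z / k + 1) : ℕ) : ℤ), (k : ℤ)) with hG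
    have hGs : (G.image Prod.snd).card = S.card := by
      rw [hG, Finset.image_image]
      exact Finset.card_image_of_injective _ fun a b hab => by
        have : (a : ℤ) = b := hab
        exact_mod_cast this
    have hsl : (ms.sup fun r => (G.image fun g => g.1 + (r : ℤ) * g.2).card) ≤ M.card := by
      refine Finset.sup_le fun r hr => ?_
      have hsub : (G.image fun g => g.1 + (r : ℤ) * g.2) ⊆ M.image fun a : ℕ => (a : ℤ) := by
        intro y hy
        obtain ⟨g, hg, rfl⟩ := Finset.mem_image.1 hy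
        obtain ⟨k, hk, rfl⟩ := Finset.mem_image.1 hg
        refine Finset.mem_image.2 ⟨_, key r hr k hk, ?_⟩
        push_cast
        ring
      exact (Finset.card_le_card hsub).trans Finset.card_image_le
    have h1 : (S.card : ℝ) ≤ (M.card : ℝ) ^ c := by
      have h2 := hSB G
      rw [hGs] at h2
      refine h2.trans (Real.rpow_le_rpow (Nat.cast_nonneg _) ?_ hc0.le)
      exact_mod_cast hsl
    have hKc : (0 : ℝ) < (K : ℝ) ^ c := Real.rpow_pos_of_pos (by exact_mod_cast hK0) c
    have h3 : (S.card : ℝ) * (K : ℝ) ^ c ≤ ((K : ℝ) * M.card) ^ c := by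
      rw [Real.mul_rpow (Nat.cast_nonneg _) (Nat.cast_nonneg _), mul_comm]
      exact mul_le_mul_of_nonneg_left h1 hKc.le
    have h4 : ((K : ℝ) * M.card) ^ c ≤ (N.card : ℝ) ^ c :=
      Real.rpow_le_rpow (by positivity) (by exact_mod_cast hjB) hc0.le
    have h5 : (N.card : ℝ) ^ c < (S.card : ℝ) ^ c :=
      Real.rpow_lt_rpow (Nat.cast_nonneg _) (by rw [hSc]; exact_mod_cast hcon) hc0
    have hSpos : (0 : ℝ) < S.card := by exact_mod_cast hS0
    have h6 : (S.card : ℝ) ^ c = S.card * (S.card : ℝ) ^ (c - 1) := by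
      rw [Real.rpow_sub_one hSpos.ne', mul_div_cancel₀ _ hSpos.ne']
    have h7 : (S.card : ℝ) ^ (c - 1) ≤ (n : ℝ) ^ (c - 1) :=
      Real.rpow_le_rpow hSpos.le (by exact_mod_cast hSn) (by linarith)
    have h8 : (S.card : ℝ) * (S.card : ℝ) ^ (c - 1) ≤ S.card * (K : ℝ) ^ c :=
      mul_le_mul_of_nonneg_left (h7.trans hK) hSpos.le
    linarith
  obtain ⟨f, hf, hft⟩ := (Finset.all_card_le_biUnion_card_iff_exists_injective t).1 hh
  refine ⟨f, hf, fun a => ?_⟩
  have h := Finset.mem_filter.1 (hft a)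
  exact ⟨(Finset.mem_Ioc.1 h.1).1, (Finset.mem_Ioc.1 h.1).2, h.2⟩

/-- The number of blocks: `K = ⌈n ^ (1 - 1 / c)⌉`. -/
theorem exists_K {c : ℝ} (hc : 1 < c) (n : ℕ) :
    ∃ K : ℕ, (n : ℝ) ^ (c - 1) ≤ (K : ℝ) ^ c ∧ (K : ℝ) ≤ (n : ℝ) ^ (1 - 1 / c) + 1 := by
  have hc0 : 0 < c := by linarith
  set u := (n : ℝ) ^ (1 - 1 / c) with hu
  have hu0 : 0 ≤ u := by positivity
  have huc : u ^ c = (n : ℝ) ^ (c - 1) := by
    rw [hu, ← Real.rpow_mul (Nat.cast_nonneg _)]
    congr 1
    field_simp
  refine ⟨⌈u⌉₊, ?_, (Nat.ceil_lt_add_one hu0).le⟩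
  rw [← huc]
  exact Real.rpow_le_rpow hu0 (Nat.le_ceil _) hc0.le

end Pool.Agent.Y238.KE
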